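import Pool.Agent.Lib.MP_8b3902_co.F.Full

set_option autoImplicit false

namespace Pool.Agent.Results.MP_8b3902_co.TripodForests

open Pool.Agent.MP_8b3902_co

/-- (1) For all `t` and `m`, the finite graphs with no induced `K_{t,t}`, no induced `m` disjoint copies
of the claw with legs of `t` vertices and no induced `m` disjoint copies of its line-graph version have
bounded tree-independence number.
(2) Q1: every `(tw, ω)`-bounded class defined by finitely many forbidden induced subgraphs has bounded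
tree-independence number. -/
theorem result :
    (∀ t m : ℕ, ∃ K : ℕ, ∀ (V : Type) [Fintype V] (G : SimpleGraph V),
      IsEmpty (completeBipartiteGraph (Fin t) (Fin t) ↪g G) →
      IsEmpty (copies m (spider t) ↪g G) → IsEmpty (copies m (lspider t) ↪g G) →
      ∃ (m : ℕ) (T : SimpleGraph (Fin m)) (B : Fin m → Finset V),
        T.IsTree ∧ (∀ v : V, ∃ t, v ∈ B t) ∧
        (∀ u v : V, G.Adj u v → ∃ t, u ∈ B t ∧ v ∈ B t) ∧
        (∀ v : V, (T.induce {t : Fin m | v ∈ B t}).Connected) ∧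
        ∀ t, ∀ S : Finset V, S ⊆ B t →
          (∀ u ∈ S, ∀ w ∈ S, ¬ G.Adj u w) → S.card ≤ K) ∧
    (∀ (k : ℕ) (n : Fin k → ℕ) (H : ∀ i, SimpleGraph (Fin (n i))),
      (∃ f : ℕ → ℕ, ∀ (V : Type) [Fintype V] (G : SimpleGraph V),
        (∀ i, IsEmpty (H i ↪g G)) → ∀ c : ℕ, G.CliqueFree (c + 1) →
        ∃ (m : ℕ) (T : SimpleGraph (Fin m)) (B : Fin m → Finset V),
          T.IsTree ∧ (∀ v : V, ∃ t, v ∈ B t) ∧
          (∀ u v : V, G.Adj u v → ∃ t, u ∈ B t ∧ v ∈ B t) ∧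
          (∀ v : V, (T.induce {t : Fin m | v ∈ B t}).Connected) ∧
          ∀ t, (B t).card ≤ f c + 1) →
      ∃ K : ℕ, ∀ (V : Type) [Fintype V] (G : SimpleGraph V),
        (∀ i, IsEmpty (H i ↪g G)) →
        ∃ (m : ℕ) (T : SimpleGraph (Fin m)) (B : Fin m → Finset V),
          T.IsTree ∧ (∀ v : V, ∃ t, v ∈ B t) ∧
          (∀ u v : V, G.Adj u v → ∃ t, u ∈ B t ∧ v ∈ B t) ∧
          (∀ v : V, (T.induce {t : Fin m | v ∈ B t}).Connected) ∧
          ∀ t, ∀ S : Finset V, S ⊆ B t →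
            (∀ u ∈ S, ∀ w ∈ S, ¬ G.Adj u w) → S.card ≤ K) := by
  refine ⟨fun t m => ?_, main_full⟩
  rcases Nat.eq_zero_or_pos t with rfl | ht
  · refine ⟨0, fun V _ G h => (h.false ⟨⟨fun x => ?_, fun x => ?_⟩, fun {x} => ?_⟩).elim⟩
    · exact x.elim (fun i => i.elim0) (fun i => i.elim0)
    · exact x.elim (fun i => i.elim0) (fun i => i.elim0)
    · exact x.elim (fun i => i.elim0) (fun i => i.elim0)
  · obtain ⟨c, hc⟩ := sep_copies t m ht
    refine ⟨5 * c + 3, fun V _ G h1 h2 h3 => ?_⟩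
    obtain ⟨R, hR⟩ := hasDec_of_sep G c (hc V G (kfree_of_isEmpty h1) h2 h3)
    exact treeDec_of_hasDec G R (5 * c + 3) hR

end Pool.Agent.Results.MP_8b3902_co.TripodForests
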